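import Pool.Agent.Lib.MP_73239e_mp.Gen

set_option autoImplicit false

namespace Pool.Agent.Results.MP_73239e_mp.GenericNoModulus

open Pool.Agent.Lib.MP_73239e_mp

/-- The formal action of the Schroedinger operator with potential `V` on sequences. -/
def act (V : ℤ → ℝ) (f : ℤ → ℂ) : ℤ → ℂ :=
  fun n => f (n + 1) + f (n - 1) + ((V n : ℝ) : ℂ) * f n

/-- On a complex normed space `X` whose elements are read as sequences through `ev`, the set `S`
is the real spectrum of a bounded operator acting on sequences as `act V`. -/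
def IsSpecIn (X : Type) [NormedAddCommGroup X] [NormedSpace ℂ X] (ev : X → ℤ → ℂ)
    (V : ℤ → ℝ) (S : Set ℝ) : Prop :=
  ∃ H : X →L[ℂ] X, (∀ ψ : X, ev (H ψ) = act V (ev ψ)) ∧ S = {E : ℝ | (E : ℂ) ∈ spectrum ℂ H}

/-- `S` is the spectrum of the Schroedinger operator with potential `V`. -/
def IsSpecOf (V : ℤ → ℝ) (S : Set ℝ) : Prop :=
  IsSpecIn (lp (fun _ : ℤ => ℂ) 2) (fun ψ n => ψ n) V S

/-- No map whose small-scale oscillation on `B` is bounded by a multiple of `w` sends `B`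
onto `A`. -/
def NoModulusOnto (w : ℝ → ℝ) (B A : Set ℝ) : Prop :=
  ¬ ∃ (g : ℝ → ℝ) (C d : ℝ), 0 < d ∧
    (∀ x ∈ B, ∀ y ∈ B, x ≠ y → |x - y| < d → |g x - g y| ≤ C * w |x - y|) ∧ g '' B = A

/-- For every modulus, for a residual set of frequencies, all couplings and all `j < k`, no map
with that modulus sends the spectrum at the `k`-th Gauss iterate onto the one at the `j`-th. -/
theorem result :
    ∀ w : ℝ → ℝ, Filter.Tendsto w (nhdsWithin 0 (Set.Ioi 0)) (nhds 0) →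
      {α : ℝ | 0 < α → α < 1 → Irrational α ∧ ∀ j k : ℕ, j < k → ∀ lam mu : ℝ, 0 < lam → 0 < mu →
        ∃ A B : Set ℝ, IsSpecOf (pot lam (gauss^[j] α)) A ∧ IsSpecOf (pot mu (gauss^[k] α)) B ∧
          NoModulusOnto w B A} ∈ residual ℝ := by
  intro w hw
  filter_upwards [generic hw] with α hα h0 h1
  obtain ⟨hirr, hgood⟩ := hα h0 h1
  refine ⟨hirr, fun j k hjk lam mu hlam hmu => ?_⟩
  obtain ⟨H₁, hH₁⟩ := exists_isSchr _ lam (abs_pot_le hlam.le (gauss^[j] α))
  obtain ⟨H₂, hH₂⟩ := exists_isSchr _ mu (abs_pot_le hmu.le (gauss^[k] α))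
  refine ⟨Spec H₁, Spec H₂, ⟨H₁, fun ψ => funext (hH₁ ψ), rfl⟩,
    ⟨H₂, fun ψ => funext (hH₂ ψ), rfl⟩, ?_⟩
  rintro ⟨g, C, d, hd, hmod, hg⟩
  obtain ⟨L, hL⟩ := exists_nat_ge (|C| + 1 / d)
  have i1 : 0 < 1 / d := by positivity
  refine hgood j k hjk (lam, mu) hlam hmu L H₁ H₂ hH₁ hH₂ g hg ?_
  intro b hb b' hb' hne hlt
  have h2 : 1 / ((L : ℝ) + 1) ≤ d := by
    rw [one_div_le (by positivity) hd]
    linarith [abs_nonneg C]
  refine (hmod b hb b' hb' hne (lt_of_lt_of_le hlt h2)).trans ?_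
  refine (le_abs_self _).trans ?_
  rw [abs_mul]
  gcongr
  linarith

end Pool.Agent.Results.MP_73239e_mp.GenericNoModulus
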